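import Pool.Agent.W486.AG.Word

set_option autoImplicit false

namespace Pool.Agent.W374.AGCode

open Pool.Agent.W486.AG

theorem cont_cval (j : ℕ) : Continuous (fun p : X × X => cval p.1 p.2 j) := by
  have h1 : Continuous (fun p : X × X => ((p.1 j : FG), (p.2 j : FG))) :=
    ((continuous_coord j).comp continuous_fst).prodMk ((continuous_coord j).comp continuous_snd)
  have h2 : Continuous (fun q : FG × FG => Encodable.encode (j, q.1.toWord, q.2.toWord)) :=
    continuous_of_discreteTopology
  exact h2.comp h1

theorem cont_pos (j : ℕ) : Continuous (fun p : X × X => pos (cval p.1 p.2) j) := by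
  induction j with
  | zero => exact cont_cval 0
  | succ j ih => exact (ih.add (cont_cval (j + 1))).add continuous_const

theorem t_code1 : S_CODE1 := by
  intro k
  have h1 : Continuous (fun p : X × X => fun j : Fin (k + 1) => pos (cval p.1 p.2) j) :=
    continuous_pi (fun j => cont_pos j)
  classical
  have h2 : Continuous (fun q : Fin (k + 1) → ℕ => decide (∃ j, q j = k)) :=
    continuous_of_discreteTopology
  have h3 := h2.comp h1
  have h4 : (fun p : X × X => code p.1 p.2 k) = (fun q : Fin (k + 1) → ℕ => decide (∃ j, q j = k)) ∘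
      (fun p : X × X => fun j : Fin (k + 1) => pos (cval p.1 p.2) j) := by
    funext p
    unfold code
    simp only [Function.comp_apply]
    rw [decide_eq_decide]
    constructor
    · rintro ⟨j, hj, e⟩
      exact ⟨⟨j, Nat.lt_succ_of_le hj⟩, e⟩
    · rintro ⟨j, e⟩
      exact ⟨j, Nat.le_of_lt_succ j.2, e⟩
  rw [h4]
  exact h3

theorem pos_strictMono (v : ℕ → ℕ) : StrictMono (pos v) := by
  apply strictMono_nat_of_lt_succ
  intro n
  show pos v n < pos v n + v (n + 1) + 1
  omega

theorem code_iff (a b : X) (k : ℕ) : code a b k = true ↔ ∃ j, pos (cval a b) j = k := by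
  unfold code
  rw [decide_eq_true_iff]
  constructor
  · rintro ⟨j, _, e⟩
    exact ⟨j, e⟩
  · rintro ⟨j, e⟩
    refine ⟨j, ?_, e⟩
    rw [← e]
    exact (pos_strictMono _).id_le j

theorem t_code2 : S_CODE2 := by
  intro a b a' b' p q h
  obtain ⟨n0, hn0⟩ : ∃ n0, pos (cval a b) p = p + n0 :=
    Nat.exists_eq_add_of_le ((pos_strictMono _).id_le p)
  obtain ⟨j0', hj0'⟩ : ∃ j, pos (cval a' b') j = q + n0 := by
    rw [← code_iff, ← h, code_iff]
    exact ⟨p, hn0⟩
  have key : ∀ i, pos (cval a b) (p + i) + q = pos (cval a' b') (j0' + i) + p := by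
    intro i
    induction i with
    | zero =>
      simp only [Nat.add_zero]
      omega
    | succ i ih =>
      have m1 := pos_strictMono (cval a b)
      have m2 := pos_strictMono (cval a' b')
      have hp : p ≤ pos (cval a b) (p + i) :=
        ((pos_strictMono (cval a b)).id_le p).trans (m1.monotone (Nat.le_add_right _ _))
      have hlt1 : pos (cval a b) (p + i) < pos (cval a b) (p + (i + 1)) := m1 (by omega)
      have hlt2 : pos (cval a' b') (j0' + i) < pos (cval a' b') (j0' + (i + 1)) := m2 (by omega)
      obtain ⟨n1, hn1⟩ : ∃ n1, pos (cval a b) (p + (i + 1)) = p + n1 :=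
        Nat.exists_eq_add_of_le (by omega)
      obtain ⟨n2, hn2⟩ : ∃ n2, pos (cval a' b') (j0' + (i + 1)) = q + n2 :=
        Nat.exists_eq_add_of_le (by omega)
      obtain ⟨j', hj'⟩ : ∃ j, pos (cval a' b') j = q + n1 := by
        rw [← code_iff, ← h, code_iff]
        exact ⟨_, hn1⟩
      obtain ⟨j'', hj''⟩ : ∃ j, pos (cval a b) j = p + n2 := by
        rw [← code_iff, h, code_iff]
        exact ⟨_, hn2⟩
      have h1 : j0' + i < j' := by
        rw [← m2.lt_iff_lt]
        omega
      have h2 : p + i < j'' := by
        rw [← m1.lt_iff_lt]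
        omega
      have h3 : pos (cval a' b') (j0' + (i + 1)) ≤ pos (cval a' b') j' := m2.monotone (by omega)
      have h4 : pos (cval a b) (p + (i + 1)) ≤ pos (cval a b) j'' := m1.monotone (by omega)
      omega
  have hv : ∀ i, cval a b (p + i + 1) = cval a' b' (j0' + i + 1) := by
    intro i
    have h1 := key i
    have h2 := key (i + 1)
    have e1 : pos (cval a b) (p + (i + 1)) = pos (cval a b) (p + i) + cval a b (p + i + 1) + 1 := rfl
    have e2 : pos (cval a' b') (j0' + (i + 1))
      = pos (cval a' b') (j0' + i) + cval a' b' (j0' + i + 1) + 1 := rfl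
    omega
  have he : ∀ i, p + i + 1 = j0' + i + 1 ∧ (a (p + i + 1)).toWord = (a' (j0' + i + 1)).toWord ∧
      (b (p + i + 1)).toWord = (b' (j0' + i + 1)).toWord := by
    intro i
    have h1 := Encodable.encode_injective (hv i)
    rw [Prod.mk.injEq, Prod.mk.injEq] at h1
    exact h1
  have hj : p = j0' := by
    have := (he 0).1
    omega
  subst hj
  constructor
  · apply eq_of_frequently
    intro N
    exact ⟨p + N + 1, by omega, FreeGroup.toWord_injective (he N).2.1⟩
  · apply eq_of_frequently
    intro N
    exact ⟨p + N + 1, by omega, FreeGroup.toWord_injective (he N).2.2⟩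

end Pool.Agent.W374.AGCode
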