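import Pool.Agent.W486.AG.Word

set_option autoImplicit false

namespace Pool.Agent.W374.AGHit

open Pool.Agent.W486.AG Filter Topology

theorem cyl_nhds (x : Cn) (N : ℕ) : {y : Cn | ∀ i, i < N → y i = x i} ∈ 𝓝 x :=
  (PiNat.isOpen_cylinder (fun _ => Bool) x N).mem_nhds (PiNat.self_mem_cylinder x N)

theorem exists_cyl {x : Cn} {O : Set Cn} (hO : O ∈ 𝓝 x) :
    ∃ N, ∀ y : Cn, (∀ i, i < N → y i = x i) → y ∈ O := by
  obtain ⟨V, hVO, hV, hxV⟩ := mem_nhds_iff.1 hO
  obtain ⟨C, ⟨z, N, rfl⟩, hxC, hC⟩ := (PiNat.isTopologicalBasis_cylinders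
    (fun _ : ℕ => Bool)).exists_subset_of_mem_open hxV hV
  refine ⟨N, fun y hy => hVO (hC ?_)⟩
  intro i hi
  rw [hy i hi]
  exact hxC i hi

/-- a continuous function of two points of the Cantor space depends on finitely many coordinates -/
theorem unif2 (g : Cn × Cn → Bool) (hg : Continuous g) :
    ∃ L, ∀ x x' y y' : Cn, (∀ i, i < L → x i = x' i) → (∀ i, i < L → y i = y' i) →
      g (x, y) = g (x', y') := by
  have h1 : ∀ p : Cn × Cn, ∃ N, ∀ q : Cn × Cn, (∀ i, i < N → q.1 i = p.1 i) →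
      (∀ i, i < N → q.2 i = p.2 i) → g q = g p := by
    intro p
    have hO : g ⁻¹' {g p} ∈ 𝓝 p := hg.continuousAt.preimage_mem_nhds
      ((isOpen_discrete {g p}).mem_nhds rfl)
    rw [show p = (p.1, p.2) from rfl, mem_nhds_prod_iff] at hO
    obtain ⟨O1, hO1, O2, hO2, hsub⟩ := hO
    obtain ⟨N1, hN1⟩ := exists_cyl hO1
    obtain ⟨N2, hN2⟩ := exists_cyl hO2
    refine ⟨max N1 N2, fun q hq1 hq2 => ?_⟩
    exact hsub ⟨hN1 _ (fun i hi => hq1 i (lt_of_lt_of_le hi (le_max_left _ _))),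
      hN2 _ (fun i hi => hq2 i (lt_of_lt_of_le hi (le_max_right _ _)))⟩
  choose Np hNp using h1
  obtain ⟨t, _, ht⟩ := (isCompact_univ (X := Cn × Cn)).elim_nhds_subcover
    (fun p => {q : Cn × Cn | (∀ i, i < Np p → q.1 i = p.1 i) ∧ ∀ i, i < Np p → q.2 i = p.2 i})
    (fun p _ => by
      have h2 : {y : Cn | ∀ i, i < Np p → y i = p.1 i} ×ˢ {y : Cn | ∀ i, i < Np p → y i = p.2 i}
          ∈ 𝓝 p := by
        rw [show p = (p.1, p.2) from rfl]
        exact prod_mem_nhds (cyl_nhds _ _) (cyl_nhds _ _)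
      exact h2)
  refine ⟨t.sup Np, fun x x' y y' hx hy => ?_⟩
  have h3 := ht (Set.mem_univ (x, y))
  rw [Set.mem_iUnion₂] at h3
  obtain ⟨p, hp, h4, h5⟩ := h3
  have h6 : Np p ≤ t.sup Np := Finset.le_sup hp
  rw [hNp p (x, y) h4 h5, hNp p (x', y')]
  · intro i hi
    show x' i = p.1 i
    rw [← hx i (lt_of_lt_of_le hi h6)]
    exact h4 i hi
  · intro i hi
    show y' i = p.2 i
    rw [← hy i (lt_of_lt_of_le hi h6)]
    exact h5 i hi

/-- states of the recursion -/
structure St where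
  N : ℕ
  α : Cn
  β : Cn
  μ : Cn
  w : Cn
  c : ℕ

/-- existence of the sequence of states -/
theorem exists_seq (hstep : S_STEP) (s : ℕ → ℕ → Bool) (f : Cn → X) (hs : Dns s) (hf : Hom s f)
    (Lf : ℕ → ℕ) (S0 : St) (h0 : Lf 0 ≤ S0.N) (bt : St → ℕ → Bool) :
    ∃ st : ℕ → St, st 0 = S0 ∧ (∀ k, Lf k ≤ (st k).N) ∧
      ∀ k, StepOK f (st k).N (st k).α (st k).β (st k).μ (bt (st k) k) (st k).c
        (st (k + 1)).N (st (k + 1)).α (st (k + 1)).β (st (k + 1)).μ (st (k + 1)).w
        (st (k + 1)).c := by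
  have h1 : ∀ (k : ℕ) (S : St), ∃ S' : St, Lf (k + 1) ≤ S'.N ∧
      StepOK f S.N S.α S.β S.μ (bt S k) S.c S'.N S'.α S'.β S'.μ S'.w S'.c := by
    intro k S
    obtain ⟨N', α', β', μ', w', c', h2, h3⟩ :=
      hstep s f hs hf S.N S.α S.β S.μ (bt S k) S.c (Lf (k + 1))
    exact ⟨⟨N', α', β', μ', w', c'⟩, h2, h3⟩
  choose nx hnx1 hnx2 using h1
  refine ⟨fun k => Nat.rec S0 (fun k S => nx k S) k, rfl, ?_, ?_⟩
  · intro k
    cases k with
    | zero => exact h0
    | succ k => exact hnx1 k _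
  · intro k
    exact hnx2 k _

theorem t_hit (hstep : S_STEP) (hinit : S_INIT) (hcode : S_CODE1) (htree : S_TREE)
    (hstr : S_STR) : S_HIT := by
  intro s f hs hf
  obtain ⟨hpost, _, hcons⟩ := htree
  have hcont := hf.1
  have hL : ∀ k, ∃ L, ∀ x x' y y' : Cn, (∀ i, i < L → x i = x' i) → (∀ i, i < L → y i = y' i) →
      code (f x) (f y) k = code (f x') (f y') k := by
    intro k
    exact unif2 (fun p => code (f p.1) (f p.2) k) ((hcode k).comp
      ((hcont.comp continuous_fst).prodMk (hcont.comp continuous_snd)))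
  choose Lf hLf using hL
  obtain ⟨N0, α0, β0, μ0, Δr, A, Δl, c0, hN0, hAl, hr0, hl0⟩ := hinit s f hs hf (Lf 0)
  obtain ⟨st, hst0, hstL, hOK⟩ := exists_seq hstep s f hs hf Lf ⟨N0, α0, β0, μ0, μ0, c0⟩ hN0
    (fun S k => code (f (splice S.N S.α (fun _ => false))) (f (splice S.N S.β (fun _ => false))) k)
  set N : ℕ → ℕ := fun k => (st k).N with hN
  set α : ℕ → Cn := fun k => (st k).α with hα
  set β : ℕ → Cn := fun k => (st k).β with hβ
  set μ : ℕ → Cn := fun k => (st k).μ with hμ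
  set w : ℕ → Cn := fun k => (st k).w with hw
  set c : ℕ → ℕ := fun k => (st k).c with hc
  set bit : ℕ → Bool := fun k => code (f (splice (N k) (α k) (fun _ => false)))
    (f (splice (N k) (β k) (fun _ => false))) k with hbit
  have hOK' : ∀ k, StepOK f (N k) (α k) (β k) (μ k) (bit k) (c k) (N (k + 1)) (α (k + 1))
      (β (k + 1)) (μ (k + 1)) (w (k + 1)) (c (k + 1)) := hOK
  have hN0' : N 0 = N0 := by show (st 0).N = N0; rw [hst0]
  have hα0' : α 0 = α0 := by show (st 0).α = α0; rw [hst0]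
  have hβ0' : β 0 = β0 := by show (st 0).β = β0; rw [hst0]
  have hμ0' : μ 0 = μ0 := by show (st 0).μ = μ0; rw [hst0]
  have hc0' : c 0 = c0 := by show (st 0).c = c0; rw [hst0]
  have hNmono : StrictMono N := strictMono_nat_of_lt_succ (fun k => (hOK' k).1)
  have hcmono : StrictMono c := strictMono_nat_of_lt_succ (fun k => (hOK' k).2.1)
  have hagree : ∀ k j, ∀ i, i < N k → α (k + j) i = α k i ∧ β (k + j) i = β k i ∧
      μ (k + j) i = μ k i := by
    intro k j
    induction j with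
    | zero => intro i _; exact ⟨rfl, rfl, rfl⟩
    | succ j ih =>
      intro i hi
      have h1 : i < N (k + j) := lt_of_lt_of_le hi (hNmono.monotone (Nat.le_add_right _ _))
      obtain ⟨h2, h3, h4, _⟩ := (hOK' (k + j)).2.2.1 i h1
      obtain ⟨h5, h6, h7⟩ := ih i hi
      exact ⟨h2.trans h5, h3.trans h6, h4.trans h7⟩
  have hagree' : ∀ k k', k ≤ k' → ∀ i, i < N k → α k' i = α k i ∧ β k' i = β k i ∧
      μ k' i = μ k i := by
    intro k k' hk i hi
    obtain ⟨j, rfl⟩ := Nat.exists_eq_add_of_le hk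
    exact hagree k j i hi
  let xa : Cn := fun i => α (i + 1) i
  let xb : Cn := fun i => β (i + 1) i
  have hNi : ∀ i, i < N (i + 1) := fun i => lt_of_lt_of_le (Nat.lt_succ_self i) (hNmono.id_le (i + 1))
  have hxa : ∀ k i, i < N k → xa i = α k i := by
    intro k i hi
    show α (i + 1) i = α k i
    rw [← (hagree' k (max k (i + 1)) (le_max_left _ _) i hi).1,
      ← (hagree' (i + 1) (max k (i + 1)) (le_max_right _ _) i (hNi i)).1]
  have hxb : ∀ k i, i < N k → xb i = β k i := by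
    intro k i hi
    show β (i + 1) i = β k i
    rw [← (hagree' k (max k (i + 1)) (le_max_left _ _) i hi).2.1,
      ← (hagree' (i + 1) (max k (i + 1)) (le_max_right _ _) i (hNi i)).2.1]
  have hsa : ∀ k, splice (N k) (α k) xa = xa := by
    intro k
    funext i
    unfold splice
    by_cases hi : i < N k
    · rw [if_pos hi, hxa k i hi]
    · rw [if_neg hi]
  have hsb : ∀ k, splice (N k) (β k) xb = xb := by
    intro k
    funext i
    unfold splice
    by_cases hi : i < N k
    · rw [if_pos hi, hxb k i hi]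
    · rw [if_neg hi]
  have hbitk : ∀ k, code (f xa) (f xb) k = bit k := by
    intro k
    apply hLf k
    · intro i hi
      have hi' : i < N k := lt_of_lt_of_le hi (hstL k)
      unfold splice
      rw [if_pos hi', hxa k i hi']
    · intro i hi
      have hi' : i < N k := lt_of_lt_of_le hi (hstL k)
      unfold splice
      rw [if_pos hi', hxb k i hi']
  -- the limit edge
  let u : ℕ → X := fun k => f (splice (N k) (μ k) xa)
  let ww : ℕ → X := fun k => f (splice (N (k + 1)) (w (k + 1)) xa)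
  let M : X := f (splice (N 0) (μ 0) xb)
  have hF : ∀ k, ∃ d αF, E d (c (k + 1)) αF (u (k + 1)) (ww k) ∧
      (bit k = true → ∃ d' δ αH, αF < δ ∧ E d' δ αH (ww k) (u k)) ∧
      (bit k = false → ww k = u k) := by
    intro k
    obtain ⟨d, αF, h1, h2, h3⟩ := (hOK' k).2.2.2.2.2 xa
    rw [hsa (k + 1)] at h2 h3
    exact ⟨d, αF, h1, h2, fun hb => by show f _ = f _; rw [h3 hb]⟩
  have hlow : ∀ k m, m < c (k + 1) → (u (k + 1)) m = (u k) m := by
    intro k m hm
    obtain ⟨d, αF, h1, h2, h3⟩ := hF k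
    rw [hpost.low _ _ _ _ _ h1 m hm]
    cases hb : bit k with
    | false => rw [h3 hb]
    | true =>
      obtain ⟨d', δ, αH, h4, h5⟩ := h2 hb
      have h6 := (hstr E hpost _ _ _ _ _ h1).1
      exact hpost.low _ _ _ _ _ h5 m (by omega)
  have hlow' : ∀ k m, m < c (k + 1) → ∀ j, (u (k + j)) m = (u k) m := by
    intro k m hm j
    induction j with
    | zero => rfl
    | succ j ih =>
      rw [← ih]
      exact hlow (k + j) m (lt_of_lt_of_le hm (hcmono.monotone (by omega)))
  have htend : Tendsto (fun j => splice (N j) (μ j) xa) atTop (𝓝 (splice (N 0) (μ 0) xb)) := by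
    rw [tendsto_pi_nhds]
    intro i
    apply tendsto_nhds_of_eventually_eq
    rw [eventually_atTop]
    refine ⟨i + 1, fun j hj => ?_⟩
    have hij : i < N j := lt_of_lt_of_le (hNi i) (hNmono.monotone hj)
    unfold splice
    rw [if_pos hij]
    by_cases hi0 : i < N 0
    · rw [if_pos hi0]
      exact (hagree' 0 j (Nat.zero_le _) i hi0).2.2
    · rw [if_neg hi0]
      -- find the block containing `i`
      have hex : ∃ k, i < N k := ⟨j, hij⟩
      classical
      obtain ⟨k, hk⟩ : ∃ k, Nat.find hex = k + 1 := by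
        cases h : Nat.find hex with
        | zero =>
          have := Nat.find_spec hex
          rw [h] at this
          exact absurd this hi0
        | succ k => exact ⟨k, rfl⟩
      have hk1 : i < N (k + 1) := by rw [← hk]; exact Nat.find_spec hex
      have hk2 : N k ≤ i := by
        have := Nat.find_min hex (m := k) (by omega)
        omega
      have hk3 : k + 1 ≤ j := by rw [← hk]; exact Nat.find_min' hex hij
      rw [(hagree' (k + 1) j hk3 i hk1).2.2, (hOK' k).2.2.2.1 i hk2 hk1, hxb (k + 1) i hk1]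
  have hlim : ∀ k m, m < c (k + 1) → (u k) m = M m := by
    intro k m hm
    have h1 : Tendsto (fun j => (u j) m) atTop (𝓝 (M m)) :=
      (((continuous_coord m).comp hcont).tendsto _).comp htend
    have h2 : ∀ᶠ j in atTop, (u j) m ∈ ({M m} : Set FG) :=
      h1.eventually ((isOpen_discrete {M m}).mem_nhds rfl)
    rw [eventually_atTop] at h2
    obtain ⟨J, hJ⟩ := h2
    have h3 := hJ (k + J) (by omega)
    rw [← hlow' k m hm J]
    exact h3
  obtain ⟨dr, αr, hr1, hr2⟩ := hr0 xa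
  obtain ⟨dl', αl, hl1, hl2⟩ := hl0 xb
  rw [← hN0', ← hα0', ← hμ0', hsa 0] at hr2
  rw [← hN0', ← hβ0', ← hμ0', hsb 0] at hl2
  have hLim : Lim E dr Δr Δl (f xa) (f xb) M u ww (fun k => c (k + 1)) := by
    refine ⟨⟨αr, by omega, hr2⟩, ⟨dl', αl, ?_, hl2⟩, ?_, ?_, ?_, hlim⟩
    · show αl < c (0 + 1)
      have := (hOK' 0).2.1
      rw [hc0'] at this
      omega
    · intro i j hij
      exact hcmono (by omega)
    · intro k
      obtain ⟨d, αF, h1, h2, h3⟩ := hF k
      refine ⟨d, αF, h1, fun hb => h2 ?_⟩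
      rw [← hbitk k]; exact hb
    · intro k hb
      obtain ⟨d, αF, h1, h2, h3⟩ := hF k
      exact h3 (by rw [← hbitk k]; exact hb)
  refine ⟨xa, xb, ⟨_, _, _, hcons _ _ _ _ _ _ _ _ _ hLim⟩, ?_⟩
  apply Set.infinite_of_forall_exists_gt
  intro k
  obtain ⟨i, hi1, hi2, hi3⟩ := (hOK' (k + 1)).2.2.2.2.1
  refine ⟨i, ?_, ?_⟩
  · show xa i ≠ xb i
    rw [hxa _ i hi2, hxb _ i hi2]
    exact hi3
  · have := hNmono.id_le (k + 1)
    have h2 : k + 1 ≤ N (k + 1) := this
    omega

end Pool.Agent.W374.AGHit
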