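import Pool.Agent.W486.AG.Word

set_option autoImplicit false

namespace Pool.Agent.W374.AGStep

open Pool.Agent.W486.AG

/-- extension of the string `x` (known below `N`) -/
def ext (s : ℕ → ℕ → Bool) (N n : ℕ) (τ x : Cn) (b : Bool) : Cn :=
  fun i => if i < N then x i else if i < n then s n i else if i = n then b else τ i

theorem pt_eq {s : ℕ → ℕ → Bool} {N n N' : ℕ} {τ v z : Cn} {b : Bool} (h1 : N ≤ n)
    (h2 : n < N') (h3 : ∀ i, i < N → s n i = v i) :
    pt s n b N' τ z = splice N' (ext s N n τ v b) z := by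
  funext i
  unfold pt splice ext
  by_cases hi : i < N
  · rw [if_pos (by omega), if_pos (by omega), if_pos hi, h3 i hi]
  · by_cases h4 : i < n
    · rw [if_pos h4, if_pos (by omega), if_neg hi, if_pos h4]
    · by_cases h5 : i = n
      · rw [if_neg h4, if_pos h5, if_pos (by omega), if_neg hi, if_neg h4, if_pos h5]
      · rw [if_neg h4, if_neg h5]
        by_cases h6 : i < N'
        · rw [if_pos h6, if_pos h6, if_neg hi, if_neg h4, if_neg h5]
        · rw [if_neg h6, if_neg h6]

theorem splice_eq {N N' : ℕ} {x y z : Cn} (h : N ≤ N') (hxy : ∀ i, i < N → x i = y i) :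
    splice N' x z = splice N y (splice N' x z) := by
  funext i
  unfold splice
  by_cases hi : i < N
  · rw [if_pos hi, if_pos (by omega), hxy i hi]
  · rw [if_neg hi]

theorem t_step (hins : S_INS) : S_STEP := by
  intro s f hs hf N α β μ bit c L
  obtain ⟨n, ε, N1, τ, Δ, A, hn1, hn2, hn3, hn4, hE⟩ := hins s f hs hf μ (max N L) c
  have hNn : N ≤ n := le_trans (le_max_left _ _) hn1
  have hLn : L ≤ n := le_trans (le_max_right _ _) hn1
  have hn3' : ∀ i, i < N → s n i = μ i := fun i hi => hn3 i (lt_of_lt_of_le hi (le_max_left _ _))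
  have hE' : ∀ z, ∃ d al, al ≤ A ∧ E d Δ al (f (splice N1 (ext s N n τ μ (!ε)) z))
      (f (splice N1 (ext s N n τ μ ε) z)) := by
    intro z
    obtain ⟨d, al, h1, h2⟩ := hE z
    rw [pt_eq hNn hn2 hn3', pt_eq hNn hn2 hn3'] at h2
    exact ⟨d, al, h1, h2⟩
  have hlow : ∀ (x : Cn) (b : Bool) i, i < N → ext s N n τ x b i = x i := by
    intro x b i hi
    unfold ext
    rw [if_pos hi]
  have hhigh : ∀ (x y : Cn) (b : Bool) i, N ≤ i → ext s N n τ x b i = ext s N n τ y b i := by
    intro x y b i hi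
    have hi' : ¬ i < N := by omega
    unfold ext
    rw [if_neg hi', if_neg hi']
  have hat : ∀ (x : Cn) (b : Bool), ext s N n τ x b n = b := by
    intro x b
    unfold ext
    rw [if_neg (by omega), if_neg (by omega), if_pos rfl]
  cases bit with
  | false =>
    refine ⟨N1, ext s N n τ α ε, ext s N n τ β (!ε), ext s N n τ μ (!ε), ext s N n τ μ ε, Δ,
      by omega, by omega, hn4, ?_, ?_, ?_, ?_⟩
    · intro i hi
      exact ⟨hlow _ _ i hi, hlow _ _ i hi, hlow _ _ i hi, hlow _ _ i hi⟩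
    · intro i hi _
      exact hhigh _ _ _ i hi
    · refine ⟨n, hNn, hn2, ?_⟩
      rw [hat, hat]
      cases ε <;> decide
    · intro z
      obtain ⟨d, al, _, h2⟩ := hE' z
      refine ⟨d, al, h2, fun h => absurd h (by decide), fun _ => ?_⟩
      funext i
      unfold splice
      by_cases hi : i < N
      · rw [if_pos (by omega), if_pos hi, hlow _ _ i hi]
      · rw [if_neg hi]
        by_cases hi2 : i < N1
        · rw [if_pos hi2, if_pos hi2, hhigh μ α ε i (by omega)]
        · rw [if_neg hi2, if_neg hi2]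
  | true =>
    obtain ⟨n2, ε2, N2, τ2, δ, A2, hm1, hm2, hm3, hm4, hE2⟩ :=
      hins s f hs hf (ext s N n τ μ ε) N1 A
    have hlow2 : ∀ (x : Cn) (b : Bool) i, i < N1 → ext s N1 n2 τ2 x b i = x i := by
      intro x b i hi
      unfold ext
      rw [if_pos hi]
    have hhigh2 : ∀ (x y : Cn) (b : Bool) i, N1 ≤ i →
        ext s N1 n2 τ2 x b i = ext s N1 n2 τ2 y b i := by
      intro x y b i hi
      have hi' : ¬ i < N1 := by omega
      unfold ext
      rw [if_neg hi', if_neg hi']
    refine ⟨N2, ext s N1 n2 τ2 (ext s N n τ α ε) ε2, ext s N1 n2 τ2 (ext s N n τ β (!ε)) (!ε2),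
      ext s N1 n2 τ2 (ext s N n τ μ (!ε)) (!ε2), ext s N1 n2 τ2 (ext s N n τ μ ε) (!ε2), Δ,
      by omega, by omega, hn4, ?_, ?_, ?_, ?_⟩
    · intro i hi
      refine ⟨?_, ?_, ?_, ?_⟩ <;> rw [hlow2 _ _ i (by omega), hlow _ _ i hi]
    · intro i hi _
      by_cases hi2 : i < N1
      · rw [hlow2 _ _ i hi2, hlow2 _ _ i hi2]
        exact hhigh _ _ _ i hi
      · exact hhigh2 _ _ _ i (by omega)
    · refine ⟨n, hNn, by omega, ?_⟩
      rw [hlow2 _ _ n hn2, hlow2 _ _ n hn2, hat, hat]
      cases ε <;> decide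
    · intro z
      obtain ⟨d, al, h1, h2⟩ := hE' (splice N2 (ext s N1 n2 τ2 (ext s N n τ μ (!ε)) (!ε2)) z)
      have e1 : splice N1 (ext s N n τ μ (!ε))
          (splice N2 (ext s N1 n2 τ2 (ext s N n τ μ (!ε)) (!ε2)) z)
          = splice N2 (ext s N1 n2 τ2 (ext s N n τ μ (!ε)) (!ε2)) z :=
        (splice_eq (by omega) (fun i hi => hlow2 _ _ i hi)).symm
      have e2 : splice N1 (ext s N n τ μ ε)
          (splice N2 (ext s N1 n2 τ2 (ext s N n τ μ (!ε)) (!ε2)) z)
          = splice N2 (ext s N1 n2 τ2 (ext s N n τ μ ε) (!ε2)) z := by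
        funext i
        unfold splice
        by_cases hi : i < N1
        · rw [if_pos hi, if_pos (by omega), hlow2 _ _ i hi]
        · rw [if_neg hi]
          by_cases hi2 : i < N2
          · rw [if_pos hi2, if_pos hi2, hhigh2 _ _ _ i (by omega)]
          · rw [if_neg hi2, if_neg hi2]
      rw [e1, e2] at h2
      refine ⟨d, al, h2, fun _ => ?_, fun h => absurd h (by decide)⟩
      obtain ⟨d', al', h1', h2'⟩ := hE2 z
      rw [pt_eq hm1 hm2 hm3, pt_eq hm1 hm2 hm3] at h2'
      have e3 : splice N2 (ext s N1 n2 τ2 (ext s N n τ μ ε) ε2) z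
          = splice N μ (splice N2 (ext s N1 n2 τ2 (ext s N n τ α ε) ε2) z) := by
        funext i
        unfold splice
        by_cases hi : i < N
        · rw [if_pos (by omega), if_pos hi, hlow2 _ _ i (by omega), hlow _ _ i hi]
        · rw [if_neg hi]
          by_cases hi2 : i < N2
          · rw [if_pos hi2, if_pos hi2]
            by_cases hi3 : i < N1
            · rw [hlow2 _ _ i hi3, hlow2 _ _ i hi3, hhigh μ α ε i (by omega)]
            · exact hhigh2 _ _ _ i (by omega)
          · rw [if_neg hi2, if_neg hi2]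
      rw [e3] at h2'
      exact ⟨d', δ, al', by omega, h2'⟩

theorem t_init (hins : S_INS) : S_INIT := by
  intro s f hs hf L
  obtain ⟨n, ε, N1, τ, Δ, A, hn1, hn2, hn3, hn4, hE⟩ := hins s f hs hf (fun _ => false) L 0
  obtain ⟨n2, ε2, N2, τ2, δ, A2, hm1, hm2, hm3, hm4, hE2⟩ :=
      hins s f hs hf (ext s L n τ (fun _ => false) ε) N1 A
  have hlow2 : ∀ (x : Cn) (b : Bool) i, i < N1 → ext s N1 n2 τ2 x b i = x i := by
    intro x b i hi
    unfold ext
    rw [if_pos hi]
  have hhigh2 : ∀ (x y : Cn) (b : Bool) i, N1 ≤ i →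
      ext s N1 n2 τ2 x b i = ext s N1 n2 τ2 y b i := by
    intro x y b i hi
    have hi' : ¬ i < N1 := by omega
    unfold ext
    rw [if_neg hi', if_neg hi']
  refine ⟨N2, ext s N1 n2 τ2 (ext s L n τ (fun _ => false) (!ε)) ε2,
    ext s N1 n2 τ2 (ext s L n τ (fun _ => false) ε) (!ε2),
    ext s N1 n2 τ2 (ext s L n τ (fun _ => false) ε) ε2, Δ, A, δ, A2, by omega, hm4, ?_, ?_⟩
  · intro z
    obtain ⟨d, al, h1, h2⟩ :=
      hE (splice N2 (ext s N1 n2 τ2 (ext s L n τ (fun _ => false) ε) ε2) z)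
    rw [pt_eq hn1 hn2 hn3, pt_eq hn1 hn2 hn3] at h2
    have e1 : splice N1 (ext s L n τ (fun _ => false) ε)
        (splice N2 (ext s N1 n2 τ2 (ext s L n τ (fun _ => false) ε) ε2) z)
        = splice N2 (ext s N1 n2 τ2 (ext s L n τ (fun _ => false) ε) ε2) z :=
      (splice_eq (by omega) (fun i hi => hlow2 _ _ i hi)).symm
    have e2 : splice N1 (ext s L n τ (fun _ => false) (!ε))
        (splice N2 (ext s N1 n2 τ2 (ext s L n τ (fun _ => false) ε) ε2) z)
        = splice N2 (ext s N1 n2 τ2 (ext s L n τ (fun _ => false) (!ε)) ε2) z := by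
      funext i
      unfold splice
      by_cases hi : i < N1
      · rw [if_pos hi, if_pos (by omega), hlow2 _ _ i hi]
      · rw [if_neg hi]
        by_cases hi2 : i < N2
        · rw [if_pos hi2, if_pos hi2, hhigh2 _ _ _ i (by omega)]
        · rw [if_neg hi2, if_neg hi2]
    rw [e1, e2] at h2
    exact ⟨d, al, h1, h2⟩
  · intro z
    obtain ⟨d, al, h1, h2⟩ := hE2 z
    rw [pt_eq hm1 hm2 hm3, pt_eq hm1 hm2 hm3] at h2
    exact ⟨d, al, h1, h2⟩

end Pool.Agent.W374.AGStep
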